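import Pool.Agent.helper96.DP.API
import Pool.Agent.helper95.DP.Fin

/-!
# Full noise on blocks (module BBLK)
-/

namespace DP

open MeasureTheory

/-- Average over one site. -/
noncomputable def BBLK_A (v : V) (f : (V → Bool) → ℝ) : (V → Bool) → ℝ :=
  fun b => 1 / 2 * (upd f v true b + upd f v false b)

theorem BBLK_A_lf {Λ : Finset V} {f : (V → Bool) → ℝ} (hf : LF Λ f) (v : V) :
    LF Λ (BBLK_A v f) := by
  have h1 : LF Λ (upd f v true) := (hf.upd' v true).mono (Finset.erase_subset _ _)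
  have h2 : LF Λ (upd f v false) := (hf.upd' v false).mono (Finset.erase_subset _ _)
  exact h1.comp₂ h2 fun a b => 1 / 2 * (a + b)

theorem BBLK_upd_A (v : V) (a : Bool) (f : (V → Bool) → ℝ) : upd (BBLK_A v f) v a = BBLK_A v f := by
  funext b
  simp only [upd, BBLK_A, Function.update_idem]

theorem BBLK_bf_A {Λ : Finset V} {f g : (V → Bool) → ℝ} (ρ : V → ℝ) (hf : LF Λ f) (hg : LF Λ g)
    (v : V) : bf ρ (BBLK_A v f) g = bf (Function.update ρ v 1) f g := by
  have hft := hf.upd' v true
  have hff := hf.upd' v false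
  have hgt := hg.upd' v true
  have hgf := hg.upd' v false
  have hc : ∀ u ∈ Λ.erase v, Function.update ρ v 1 u = ρ u := fun u hu =>
    Function.update_of_ne (Finset.ne_of_mem_erase hu) _ _
  have key : ∀ g' : (V → Bool) → ℝ, LF (Λ.erase v) g' →
      bf ρ (BBLK_A v f) g' = 1 / 2 * (bf ρ (upd f v true) g' + bf ρ (upd f v false) g') := by
    intro g' hg'
    rw [← bf_add_left ρ hft hff hg', ← bf_mul_left]
    rfl
  rw [bf_site ρ (BBLK_A_lf hf v) hg v, bf_site (Function.update ρ v 1) hf hg v, BBLK_upd_A,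
    BBLK_upd_A, key _ hgt, key _ hgf, bf_congr hft hgt hc, bf_congr hft hgf hc,
    bf_congr hff hgt hc, bf_congr hff hgf hc, Function.update_self,
    clip_of_mem (zero_le_one) le_rfl]
  ring

/-- Average over a list of sites. -/
noncomputable def BBLK_AV (f : (V → Bool) → ℝ) : List V → (V → Bool) → ℝ
  | [] => f
  | v :: l => BBLK_A v (BBLK_AV f l)

theorem BBLK_AV_lf {Λ : Finset V} {f : (V → Bool) → ℝ} (hf : LF Λ f) :
    ∀ l : List V, LF Λ (BBLK_AV f l)
  | [] => hf
  | v :: l => BBLK_A_lf (BBLK_AV_lf hf l) v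

theorem BBLK_bf_AV {Λ : Finset V} {f g : (V → Bool) → ℝ} (hf : LF Λ f) (hg : LF Λ g) :
    ∀ (l : List V) (ρ : V → ℝ),
      bf ρ (BBLK_AV f l) g = bf (fun v => if v ∈ l then 1 else ρ v) f g
  | [], ρ => by simp [BBLK_AV]
  | v :: l, ρ => by
    rw [BBLK_AV, BBLK_bf_A ρ (BBLK_AV_lf hf l) hg v, BBLK_bf_AV hf hg l]
    congr 1
    funext w
    by_cases h1 : w ∈ l
    · simp [h1]
    · by_cases h2 : w = v
      · subst h2
        simp [h1]
      · simp [h1, h2]

theorem BBLK_bf_sub {Λ : Finset V} {f : (V → Bool) → ℝ} (hf : LF Λ f) (l : List V) (ρ : V → ℝ) :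
    bf ρ (fun b => f b - BBLK_AV f l b) (fun b => f b - BBLK_AV f l b) =
      bf ρ f f - bf (fun v => if v ∈ l then 1 else ρ v) f f := by
  have hA := BBLK_AV_lf hf l
  have hs : LF Λ (fun b => f b - BBLK_AV f l b) := hf.comp₂ hA (· - ·)
  rw [bf_sub_left ρ hf hA hs, bf_sub_right ρ hf hf hA, bf_sub_right ρ hA hf hA,
    bf_symm ρ hf hA, BBLK_bf_AV hf hf, BBLK_bf_AV hf hA, bf_symm _ hf hA, BBLK_bf_AV hf hf]
  have h : (fun v => if v ∈ l then (1 : ℝ) else if v ∈ l then 1 else ρ v) =
      fun v => if v ∈ l then 1 else ρ v := by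
    funext v
    by_cases h : v ∈ l <;> simp [h]
  rw [h]
  ring

theorem BBLK_AV_mem {f : (V → Bool) → ℝ} (hf : ∀ b, 0 ≤ f b ∧ f b ≤ 1) :
    ∀ (l : List V) (b : V → Bool), 0 ≤ BBLK_AV f l b ∧ BBLK_AV f l b ≤ 1
  | [], b => hf b
  | v :: l, b => by
    have h1 := BBLK_AV_mem hf l (Function.update b v true)
    have h2 := BBLK_AV_mem hf l (Function.update b v false)
    constructor
    · show 0 ≤ 1 / 2 * (BBLK_AV f l (Function.update b v true) +
        BBLK_AV f l (Function.update b v false))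
      linarith
    · show 1 / 2 * (BBLK_AV f l (Function.update b v true) +
        BBLK_AV f l (Function.update b v false)) ≤ 1
      linarith

theorem BBLK_AV_const {f : (V → Bool) → ℝ} (C : Set V) :
    ∀ (l : List V), (∀ v ∈ l, v ∈ C) → ∀ b : V → Bool,
      (∀ b', (∀ w, w ∉ C → b' w = b w) → f b' = f b) → BBLK_AV f l b = f b
  | [], _, _, _ => rfl
  | v :: l, hl, b, hb => by
    have hv : v ∈ C := hl v List.mem_cons_self
    have aux : ∀ a : Bool, BBLK_AV f l (Function.update b v a) = f b := by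
      intro a
      have h0 : ∀ w, w ∉ C → Function.update b v a w = b w := fun w hw =>
        Function.update_of_ne (fun e => hw (by rw [e]; exact hv)) _ _
      rw [BBLK_AV_const C l (fun w hw => hl w (List.mem_cons_of_mem _ hw)) (Function.update b v a),
        hb _ h0]
      intro b' hb'
      rw [hb _ h0]
      exact hb b' fun w hw => by rw [hb' w hw, h0 w hw]
    show 1 / 2 * (BBLK_AV f l (Function.update b v true) +
        BBLK_AV f l (Function.update b v false)) = f b
    rw [aux, aux]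
    ring

theorem BBLK_piv_dep {Λ : Finset V} {F : Set (V → Bool)} (h : Dep F (Λ : Set V)) (B : Set V) :
    Dep (Piv B F) (Λ : Set V) := by
  classical
  have key : ∀ b b' : V → Bool, (∀ v ∈ (Λ : Set V), b v = b' v) → b ∈ Piv B F → b' ∈ Piv B F := by
    rintro b b' hb ⟨c, c', hc, h1, h2⟩
    refine ⟨fun v => if v ∈ Λ then c v else b' v, fun v => if v ∈ Λ then c' v else b' v, ?_, ?_, ?_⟩
    · intro v hv
      by_cases hΛ : v ∈ Λ
      · simp only [hΛ, if_true]
        rw [← hb v hΛ]
        exact hc v hv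
      · simp [hΛ]
    · refine (h _ _ fun v hv => ?_).1 h1
      rw [Finset.mem_coe] at hv
      simp only [hv, if_true]
    · refine fun h3 => h2 ((h _ _ fun v hv => ?_).1 h3)
      rw [Finset.mem_coe] at hv
      simp only [hv, if_true]
  exact fun b b' hb => ⟨key b b' hb, key b' b fun v hv => (hb v hv).symm⟩

open Classical in
/-- One block. -/
theorem BBLK_one {Λ : Finset V} {F : Set (V → Bool)} (h : Dep F (Λ : Set V)) (ρ : V → ℝ)
    (C : Finset V) :
    Q ρ F F ≤ Q (fun v => if v ∈ C then 1 else ρ v) F F +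
      Q ρ (Piv (C : Set V) F) (Piv (C : Set V) F) := by
  have hP := BBLK_piv_dep h (C : Set V)
  rw [Q_eq ρ h h, Q_eq _ h h, Q_eq ρ hP hP]
  have hf := h.lf
  have h1 := BBLK_bf_sub hf C.toList ρ
  simp only [Finset.mem_toList] at h1
  have hA := BBLK_AV_lf hf C.toList
  have hs : LF Λ (fun b => ind F b - BBLK_AV (ind F) C.toList b) := hf.comp₂ hA (· - ·)
  have habs : ∀ b, |ind F b - BBLK_AV (ind F) C.toList b| ≤ ind (Piv (C : Set V) F) b := by
    intro b
    have m1 := ind_nonneg F b
    have m2 := ind_le_one F b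
    obtain ⟨m3, m4⟩ := BBLK_AV_mem (fun b => ⟨ind_nonneg F b, ind_le_one F b⟩) C.toList b
    by_cases hb : b ∈ Piv (C : Set V) F
    · rw [ind_of_mem hb, abs_le]
      constructor <;> linarith
    · rw [ind_of_notMem hb, BBLK_AV_const (C : Set V) C.toList
        (fun v hv => Finset.mem_coe.2 (Finset.mem_toList.1 hv)) b, sub_self, abs_zero]
      intro b' hb'
      by_cases hF : b ∈ F
      · by_cases hF' : b' ∈ F
        · rw [ind_of_mem hF, ind_of_mem hF']
        · exact absurd ⟨b, b', fun v hv => ⟨rfl, hb' v hv⟩, hF, hF'⟩ hb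
      · by_cases hF' : b' ∈ F
        · exact absurd ⟨b', b, fun v hv => ⟨hb' v hv, rfl⟩, hF', hF⟩ hb
        · rw [ind_of_notMem hF, ind_of_notMem hF']
  have h2 : bf ρ (fun b => ind F b - BBLK_AV (ind F) C.toList b)
      (fun b => ind F b - BBLK_AV (ind F) C.toList b) ≤
        bf ρ (ind (Piv (C : Set V) F)) (ind (Piv (C : Set V) F)) := by
    refine ex2_mono ρ (lf_pair hs hs) (lf_pair hP.lf hP.lf) fun w => ?_
    refine (le_abs_self _).trans ?_
    rw [abs_mul]
    exact mul_le_mul (habs _) (habs _) (abs_nonneg _) (ind_nonneg _ _)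
  linarith

open Classical in
theorem Bblocks (hanti : Banti_stmt) : Bblocks_stmt := by
  intro ρ F A N B hρ hF hdisj
  obtain ⟨Λ, hΛA, hD⟩ := hF
  -- the blocks treated so far
  have main : ∀ k : ℕ, k ≤ N → Q ρ F F ≤
      Q (fun v => if ∃ i : Fin N, i.1 < k ∧ v ∈ B i then 1 else ρ v) F F +
        ∑ i ∈ (Finset.univ : Finset (Fin N)).filter (fun i => i.1 < k),
          Q ρ (Piv (B i : Set V) F) (Piv (B i : Set V) F) := by
    intro k
    induction k with
    | zero =>
      intro _
      simp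
    | succ k ih =>
      intro hk
      have ih' := ih (by omega)
      set ρ' : V → ℝ := fun v => if ∃ i : Fin N, i.1 < k ∧ v ∈ B i then 1 else ρ v with hρ'
      have hP' : Profile ρ' := by
        intro v
        rw [hρ']
        dsimp only
        split_ifs
        · exact ⟨zero_le_one, le_rfl⟩
        · exact hρ v
      have hle : ∀ v ∈ (Λ : Set V), ρ v ≤ ρ' v := by
        intro v _
        rw [hρ']
        dsimp only
        split_ifs
        · exact (hρ v).2
        · exact le_rfl
      have h1 := BBLK_one hD ρ' (B ⟨k, by omega⟩)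
      have h2 := hanti ρ ρ' (Piv (B ⟨k, by omega⟩ : Set V) F) (Λ : Set V) hρ hP'
        ⟨Λ, le_rfl, BBLK_piv_dep hD _⟩ hle
      have h3 : (fun v => if v ∈ B ⟨k, by omega⟩ then 1 else ρ' v) =
          fun v => if ∃ i : Fin N, i.1 < k + 1 ∧ v ∈ B i then 1 else ρ v := by
        funext v
        rw [hρ']
        by_cases hv : v ∈ B ⟨k, by omega⟩
        · rw [if_pos hv, if_pos ⟨⟨k, by omega⟩, by simp, hv⟩]
        · rw [if_neg hv]
          show (if ∃ i : Fin N, i.1 < k ∧ v ∈ B i then (1 : ℝ) else ρ v) =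
            if ∃ i : Fin N, i.1 < k + 1 ∧ v ∈ B i then 1 else ρ v
          by_cases hv' : ∃ i : Fin N, i.1 < k ∧ v ∈ B i
          · obtain ⟨i, hi, hvi⟩ := hv'
            have q1 : ∃ i : Fin N, i.1 < k ∧ v ∈ B i := ⟨i, hi, hvi⟩
            have q2 : ∃ i : Fin N, i.1 < k + 1 ∧ v ∈ B i := ⟨i, by omega, hvi⟩
            rw [if_pos q1, if_pos q2]
          · rw [if_neg hv', if_neg]
            rintro ⟨i, hi, hvi⟩
            by_cases hik : i.1 = k
            · apply hv
              have : i = ⟨k, by omega⟩ := Fin.ext hik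
              rw [← this]
              exact hvi
            · exact hv' ⟨i, by omega, hvi⟩
      have h4 : (Finset.univ : Finset (Fin N)).filter (fun i => i.1 < k + 1) =
          insert ⟨k, by omega⟩ ((Finset.univ : Finset (Fin N)).filter (fun i => i.1 < k)) := by
        ext i
        simp only [Finset.mem_filter, Finset.mem_univ, true_and, Finset.mem_insert, Fin.ext_iff]
        omega
      rw [h3] at h1
      rw [h4, Finset.sum_insert (by simp)]
      linarith
  have h := main N le_rfl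
  have e1 : (fun v => if ∃ i : Fin N, i.1 < N ∧ v ∈ B i then (1 : ℝ) else ρ v) =
      fun v => if ∃ i, v ∈ B i then 1 else ρ v := by
    funext v
    have : (∃ i : Fin N, i.1 < N ∧ v ∈ B i) ↔ ∃ i, v ∈ B i :=
      ⟨fun ⟨i, _, h⟩ => ⟨i, h⟩, fun ⟨i, h⟩ => ⟨i, i.2, h⟩⟩
    simp only [this]
  have e2 : (Finset.univ : Finset (Fin N)).filter (fun i => i.1 < N) = Finset.univ :=
    Finset.filter_true_of_mem fun i _ => i.2
  rw [e1, e2] at h
  exact h

end DP
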