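import Pool.Agent.helper95.DP.SpecH

/-!
# No ring in a time interval (module HIN)
-/

namespace DP

open MeasureTheory ProbabilityTheory Filter Topology

theorem HIN_meas_upd (k : ℕ) :
    Measurable fun p : ℝ × (ℕ → ℝ) => Function.update p.2 k p.1 := by
  rw [measurable_pi_iff]
  intro u
  by_cases h : u = k
  · subst h
    simpa using measurable_fst
  · simp only [Function.update_of_ne h]
    exact (measurable_pi_apply u).comp measurable_snd

/-- Resampling one waiting time. -/
theorem HIN_map (k : ℕ) :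
    ((expMeasure 1).prod nuT).map (fun p => Function.update p.2 k p.1) = nuT := by
  classical
  unfold nuT
  refine Measure.eq_infinitePi _ fun s t ht => ?_
  rw [Measure.map_apply (HIN_meas_upd k) (MeasurableSet.pi s.countable_toSet fun i _ => ht i)]
  have h1 : (fun p : ℝ × (ℕ → ℝ) => Function.update p.2 k p.1) ⁻¹' (Set.pi (s : Set ℕ) t) =
      (if k ∈ s then t k else Set.univ) ×ˢ (Set.pi ((s.erase k : Finset ℕ) : Set ℕ) t) := by
    ext p
    simp only [Set.mem_preimage, Set.mem_pi, Set.mem_prod, Finset.mem_coe, Finset.mem_erase]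
    constructor
    · intro h
      refine ⟨?_, fun i hi => ?_⟩
      · split_ifs with hv
        · simpa using h k hv
        · trivial
      · simpa [Function.update_of_ne hi.1] using h i hi.2
    · rintro ⟨h2, h3⟩ i hi
      by_cases hiv : i = k
      · subst hiv
        rw [if_pos hi] at h2
        simpa using h2
      · rw [Function.update_of_ne hiv]
        exact h3 i ⟨hiv, hi⟩
  rw [h1, Measure.prod_prod, Measure.infinitePi_pi _ (fun i _ => ht i)]
  by_cases hv : k ∈ s
  · rw [if_pos hv, Finset.mul_prod_erase s (fun i => (expMeasure 1) (t i)) hv]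
  · rw [if_neg hv, measure_univ, one_mul, Finset.erase_eq_of_notMem hv]

theorem HIN_meas_rt (k : ℕ) : Measurable fun x : ℕ → ℝ => rt x k := by
  unfold rt
  fun_prop

/-- Exactly `k` rings before `s`, and the next one after `t`. -/
def HIN_A (s t : ℝ) (k : ℕ) : Set (ℕ → ℝ) := {x | rt x k ≤ s ∧ t < rt x k + x k}

theorem HIN_meas_A (s t : ℝ) (k : ℕ) : MeasurableSet (HIN_A s t k) := by
  have h1 := HIN_meas_rt k
  have h2 : Measurable fun x : ℕ → ℝ => x k := measurable_pi_apply k
  exact (measurableSet_le h1 measurable_const).inter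
    (measurableSet_lt measurable_const (h1.add h2))

theorem HIN_rt_upd (x : ℕ → ℝ) (k : ℕ) (y : ℝ) : rt (Function.update x k y) k = rt x k := by
  unfold rt
  refine Finset.sum_congr rfl fun i hi => ?_
  rw [Function.update_of_ne]
  exact (Finset.mem_range.1 hi).ne

open Classical in
theorem HIN_prob_A (hEX : HEX_stmt) {s t : ℝ} (hst : s ≤ t) (k : ℕ) :
    nuT (HIN_A s t k) =
      ∫⁻ x, (if rt x k ≤ s then ENNReal.ofReal (Real.exp (-(t - rt x k))) else 0) ∂nuT := by
  have hm := HIN_meas_upd k
  have hA := HIN_meas_A s t k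
  conv_lhs => rw [← HIN_map k]
  rw [Measure.map_apply hm hA, Measure.prod_apply_symm (hm hA)]
  refine lintegral_congr fun x => ?_
  split_ifs with h
  · have h1 : (fun y : ℝ => (y, x)) ⁻¹'
        ((fun p : ℝ × (ℕ → ℝ) => Function.update p.2 k p.1) ⁻¹' (HIN_A s t k)) =
        Set.Ioi (t - rt x k) := by
      ext y
      simp only [Set.mem_preimage, HIN_A, Set.mem_ofPred_eq, HIN_rt_upd, Function.update_self,
        Set.mem_Ioi]
      constructor
      · rintro ⟨_, h2⟩
        linarith
      · intro h2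
        exact ⟨h, by linarith⟩
    rw [h1, ← hEX.1 (t - rt x k) (by linarith), measureReal_def, ENNReal.ofReal_toReal]
    exact measure_ne_top _ _
  · have h1 : (fun y : ℝ => (y, x)) ⁻¹'
        ((fun p : ℝ × (ℕ → ℝ) => Function.update p.2 k p.1) ⁻¹' (HIN_A s t k)) = ∅ := by
      ext y
      simp only [Set.mem_preimage, HIN_A, Set.mem_ofPred_eq, HIN_rt_upd,
        Set.mem_empty_iff_false, iff_false, not_and]
      intro h2
      exact absurd h2 h
    rw [h1, measure_empty]

theorem HIN_shift (hEX : HEX_stmt) {s t : ℝ} (hst : s ≤ t) (k : ℕ) :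
    nuT (HIN_A s t k) = ENNReal.ofReal (Real.exp (-(t - s))) * nuT (HIN_A s s k) := by
  classical
  rw [HIN_prob_A hEX hst, HIN_prob_A hEX le_rfl, ← lintegral_const_mul]
  · refine lintegral_congr fun x => ?_
    split_ifs with h
    · rw [← ENNReal.ofReal_mul (Real.exp_nonneg _), ← Real.exp_add]
      congr 2
      ring
    · rw [mul_zero]
  · refine Measurable.ite (measurableSet_le (HIN_meas_rt k) measurable_const) ?_ measurable_const
    exact (Real.measurable_exp.comp ((measurable_const.sub (HIN_meas_rt k)).neg)).ennreal_ofReal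

theorem HIN_iUnion (hGD : HGD_stmt) (hCN : HCN_stmt) {s t : ℝ} (hs : 0 ≤ s) (hst : s ≤ t) :
    nuT {x | cnt x s = cnt x t} = ∑' k, nuT (HIN_A s t k) := by
  have hiff : ∀ x : ℕ → ℝ, GoodT x → ∀ k, x ∈ HIN_A s t k ↔ cnt x s = k ∧ cnt x t = k := by
    intro x hx k
    have e : rt x (k + 1) = rt x k + x k := by
      unfold rt
      rw [Finset.sum_range_succ]
    rw [hCN x hx s hs k, hCN x hx t (hs.trans hst) k, e]
    constructor
    · rintro ⟨h1, h2⟩
      exact ⟨⟨h1, by linarith⟩, by linarith, h2⟩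
    · rintro ⟨⟨h1, _⟩, _, h2⟩
      exact ⟨h1, h2⟩
  have h1 : {x | cnt x s = cnt x t} =ᵐ[nuT] ⋃ k, HIN_A s t k := by
    filter_upwards [hGD] with x hx
    apply propext
    change cnt x s = cnt x t ↔ x ∈ ⋃ k, HIN_A s t k
    rw [Set.mem_iUnion]
    constructor
    · intro h
      exact ⟨cnt x s, (hiff x hx _).2 ⟨rfl, h.symm⟩⟩
    · rintro ⟨k, hk⟩
      obtain ⟨h1, h2⟩ := (hiff x hx _).1 hk
      rw [h1, h2]
  rw [measure_congr h1, measure_iUnion₀]
  · intro k l hkl
    refine measure_mono_null ?_ (ae_iff.1 hGD)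
    rintro x ⟨hk, hl⟩
    simp only [Set.mem_ofPred_eq]
    intro hx
    exact hkl (((hiff x hx k).1 hk).1.symm.trans ((hiff x hx l).1 hl).1)
  · exact fun k => (HIN_meas_A s t k).nullMeasurableSet

theorem HIN (hEX : HEX_stmt) (hGD : HGD_stmt) (hCN : HCN_stmt) : HIN_stmt := by
  intro s t hs hst
  have h1 := HIN_iUnion hGD hCN hs hst
  have h2 := HIN_iUnion hGD hCN hs (le_refl s)
  have h3 : {x : ℕ → ℝ | cnt x s = cnt x s} = Set.univ := by
    ext x
    simp
  rw [h3, measure_univ] at h2
  simp_rw [HIN_shift hEX hst] at h1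
  rw [ENNReal.tsum_mul_left, ← h2, mul_one] at h1
  rw [measureReal_def, h1, ENNReal.toReal_ofReal (Real.exp_nonneg _)]

end DP
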